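import Pool.Agent.Helper38.Form.Defs
import Pool.Agent.Helper38.Form.Main
import Pool.Agent.Helper38.Form.CIVb
import Pool.Agent.Helper36.Form.CIII
import Pool.Agent.Helper36.Form.BIII

namespace Pool.Agent.Results.MP_e6f1c2_al.Classification

open Pool.Agent.Helper38.Form

/-- Classification of the minimal non-`A`-formations: a formation is a minimal non-`A`-formation
if and only if it is generated by a group of one of the four types. -/
theorem result (F : Formation) : IsMinimalNonA F ↔
    (∃ (G : Type) (_ : Group G) (_ : Finite G), IsTypeI G ∧ F = form G) ∨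
    (∃ (E : Type) (_ : Group E) (_ : Finite E) (K : Subgroup (MulAut E)),
      IsTypeII E K ∧ F = form (Hol E K)) ∨
    (∃ (p : ℕ) (H V W Z : Type) (_ : Group H) (_ : Finite H) (_ : AddCommGroup V)
      (_ : Finite V) (_ : AddCommGroup W) (_ : Finite W) (_ : AddCommGroup Z) (_ : Finite Z)
      (_ : DistribMulAction H V) (_ : DistribMulAction H W) (_ : DistribMulAction H Z)
      (β : V →+ W →+ Z)
      (hβ : ∀ (h : H) (v : V) (w : W), β (h • v) (h • w) = h • β v w),
      IsTypeIII p (H := H) β ∧ F = form (Heis β ⋊[heisAct β hβ] H)) ∨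
    (∃ (E : Type) (_ : Group E) (_ : Finite E) (K : Subgroup (MulAut E)),
      IsTypeIV E K ∧ F = form (Hol E K)) :=
  classification_of Pool.Agent.Helper36.Form.cIII Pool.Agent.Helper36.Form.bIII cIV F

end Pool.Agent.Results.MP_e6f1c2_al.Classification
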